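import Mathlib

/-!
For a compactible relation, the complement of an interval is a finite union of pairwise disjoint
intervals.
-/

namespace Pool.Agent.Results.MP_a8ef43_co.DisjointIntervals

/-- `f` restricted to `X` is a local automorphism, with domain `X` and range `f '' X`, of the
relation `A` of arity `n` with base `E`. -/
def LocalAut {E : Type*} {n : ℕ} (A : Set (Fin n → E)) (X : Set E) (f : E → E) : Prop :=
  Set.InjOn f X ∧ ∀ t : Fin n → E, (∀ i, t i ∈ X) → (t ∈ A ↔ (fun i => f (t i)) ∈ A)

open Classical in
/-- The union of `f` restricted to `X` with the identity: the map equal to `f` on `X` and to the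
identity elsewhere. -/
noncomputable def glue {E : Type*} (X : Set E) (f : E → E) : E → E :=
  fun e => if e ∈ X then f e else e

/-- `D` is an interval modulo `A`: every local automorphism `f` of `A` with domain `X` and range
inside `D` gives, when united with the identity of the complement of `D`, a local automorphism. -/
def IsInterval {E : Type*} {n : ℕ} (A : Set (Fin n → E)) (D : Set E) : Prop :=
  ∀ (X : Set E) (f : E → E), X ⊆ D → Set.MapsTo f X D → LocalAut A X f →
    LocalAut A (X ∪ Dᶜ) (glue X f)

/-- `A` is compactible: the complement of every interval is a union of finitely many intervals. -/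
def Compactible {E : Type*} {n : ℕ} (A : Set (Fin n → E)) : Prop :=
  ∀ D : Set E, IsInterval A D →
    ∃ S : Set (Set E), S.Finite ∧ (∀ I ∈ S, IsInterval A I) ∧ Dᶜ = ⋃₀ S

section

variable {E : Type*} {n : ℕ} {A : Set (Fin n → E)}

theorem glue_of_mem {X : Set E} {f : E → E} {e : E} (h : e ∈ X) : glue X f e = f e := if_pos h

theorem glue_of_notMem {X : Set E} {f : E → E} {e : E} (h : e ∉ X) : glue X f e = e := if_neg h

theorem LocalAut.mono {X Y : Set E} {f : E → E} (h : LocalAut A Y f) (hXY : X ⊆ Y) :
    LocalAut A X f :=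
  ⟨h.1.mono hXY, fun t ht => h.2 t fun i => hXY (ht i)⟩

theorem LocalAut.congr {X : Set E} {f g : E → E} (h : LocalAut A X f) (hfg : ∀ e ∈ X, f e = g e) :
    LocalAut A X g := by
  refine ⟨fun a ha b hb hab => h.1 ha hb (by rw [hfg a ha, hfg b hb, hab]), fun t ht => ?_⟩
  rw [h.2 t ht]
  have : (fun i => f (t i)) = fun i => g (t i) := funext fun i => hfg _ (ht i)
  rw [this]

theorem IsInterval.inter {P Q : Set E} (hP : IsInterval A P) (hQ : IsInterval A Q) :
    IsInterval A (P ∩ Q) := by
  intro X f hX hf hL
  -- extend to the complement of P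
  have h1 := hP X f (fun x hx => (hX hx).1) (fun x hx => (hf hx).1) hL
  -- restrict to Q
  have h2 : LocalAut A (X ∪ (Q \ P)) (glue X f) :=
    h1.mono (by rintro x (hx | hx); exacts [Or.inl hx, Or.inr hx.2])
  have h3 := hQ (X ∪ (Q \ P)) (glue X f)
    (by rintro x (hx | hx); exacts [(hX hx).2, hx.1])
    (by
      rintro x (hx | hx)
      · rw [glue_of_mem hx]; exact (hf hx).2
      · have : x ∉ X := fun h => hx.2 (hX h).1
        rw [glue_of_notMem this]; exact hx.1) h2
  refine (h3.mono ?_).congr ?_
  · rintro x (hx | hx)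
    · exact Or.inl (Or.inl hx)
    · by_cases hq : x ∈ Q
      · exact Or.inl (Or.inr ⟨hq, fun hp => hx ⟨hp, hq⟩⟩)
      · exact Or.inr hq
  · rintro x (hx | hx)
    · rw [glue_of_mem (X := X ∪ (Q \ P)) (Or.inl hx)]
    · have hxX : x ∉ X := fun h => hx (hX h)
      by_cases hq : x ∈ Q
      · rw [glue_of_mem (X := X ∪ (Q \ P)) (Or.inr ⟨hq, fun hp => hx ⟨hp, hq⟩⟩)]
      · rw [glue_of_notMem (X := X ∪ (Q \ P)) (by
          rintro (h | h)
          · exact hxX h
          · exact hq h.1), glue_of_notMem hxX]

/-- the pattern of a tuple -/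
def pat (A : Set (Fin n → E)) (u : Fin n → E) : Set (Fin n × Fin n) × Set (Fin n → Fin n) :=
  ({p | u p.1 = u p.2}, {s | (fun i => u (s i)) ∈ A})

/-- the set of patterns of tuples from `X` -/
def tp (A : Set (Fin n → E)) (X : Set E) : Set (Set (Fin n × Fin n) × Set (Fin n → Fin n)) :=
  {q | ∃ u : Fin n → E, (∀ i, u i ∈ X) ∧ pat A u = q}

theorem tp_mono {X Y : Set E} (h : X ⊆ Y) : tp A X ⊆ tp A Y := by
  rintro q ⟨u, hu, rfl⟩
  exact ⟨u, fun i => h (hu i), rfl⟩

open Classical in
/-- If two tuples have the same pattern there is a local automorphism from the range of the first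
to the range of the second. -/
theorem exists_of_pat {u v : Fin n → E} (h : pat A u = pat A v) :
    ∃ f : E → E, (∀ i, f (u i) = v i) ∧ LocalAut A (Set.range u) f := by
  have h1 : ∀ i j, u i = u j ↔ v i = v j := by
    intro i j
    have := congrArg Prod.fst h
    simp only [pat] at this
    have h2 := Set.ext_iff.mp this (i, j)
    exact h2
  have h2 : ∀ s : Fin n → Fin n, (fun i => u (s i)) ∈ A ↔ (fun i => v (s i)) ∈ A := by
    intro s
    have := congrArg Prod.snd h
    simp only [pat] at this
    exact Set.ext_iff.mp this s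
  obtain ⟨f, hf⟩ : ∃ f : E → E, ∀ i, f (u i) = v i := by
    refine ⟨fun e => if h : ∃ i, u i = e then v h.choose else e, fun i => ?_⟩
    have hex : ∃ j, u j = u i := ⟨i, rfl⟩
    have e0 : (if h : ∃ j, u j = u i then v h.choose else u i) = v hex.choose := dif_pos hex
    exact e0.trans ((h1 _ _).mp hex.choose_spec)
  refine ⟨f, hf, ?_, ?_⟩
  · rintro _ ⟨i, rfl⟩ _ ⟨j, rfl⟩ hij
    rw [hf, hf] at hij
    exact (h1 i j).mpr hij
  · intro t ht
    choose s hs using ht
    have e1 : t = fun i => u (s i) := funext fun i => (hs i).symm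
    rw [e1, h2 s]
    have e2 : (fun i => f (u (s i))) = fun i => v (s i) := funext fun i => hf _
    rw [e2]

/-- Key lemma: if all patterns of `Q` occur in `Q \ P` then `P \ Q` is an interval. -/
theorem diff_interval {P Q : Set E} (hP : IsInterval A P) (hQ : IsInterval A Q)
    (htp : tp A Q ⊆ tp A (Q \ P)) : IsInterval A (P \ Q) := by
  classical
  intro X f hX hf hL
  have hXQ : ∀ x ∈ X, x ∉ Q := fun x hx => (hX hx).2
  have hXP : ∀ x ∈ X, x ∈ P := fun x hx => (hX hx).1
  -- first extension
  have hPf := hP X f hXP (fun x hx => (hf hx).1) hL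
  refine ⟨?_, ?_⟩
  · -- injectivity
    intro a ha b hb hab
    by_cases hax : a ∈ X
    · rw [glue_of_mem hax] at hab
      by_cases hbx : b ∈ X
      · rw [glue_of_mem hbx] at hab
        exact hL.1 hax hbx hab
      · rw [glue_of_notMem hbx] at hab
        rcases hb with hb | hb
        · exact absurd hb hbx
        · exact absurd (show b ∈ P \ Q by rw [← hab]; exact hf hax) hb
    · rw [glue_of_notMem hax] at hab
      by_cases hbx : b ∈ X
      · rw [glue_of_mem hbx] at hab
        rcases ha with ha | ha
        · exact absurd ha hax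
        · exact absurd (show a ∈ P \ Q by rw [hab]; exact hf hbx) ha
      · rw [glue_of_notMem hbx] at hab
        exact hab
  · intro t ht
    by_cases hz : ∃ i, t i ∈ P ∩ Q
    · obtain ⟨i0, hi0⟩ := hz
      -- the tuple of entries in P ∩ Q
      obtain ⟨u, hu⟩ : ∃ u : Fin n → E, u = fun i => if t i ∈ P ∩ Q then t i else t i0 := ⟨_, rfl⟩
      have huPQ : ∀ i, u i ∈ P ∩ Q := by
        intro i
        rw [hu]
        by_cases h : t i ∈ P ∩ Q
        · simp only [if_pos h]; exact h
        · simp only [if_neg h]; exact hi0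
      obtain ⟨v, hv, hpat⟩ := htp ⟨u, fun i => (huPQ i).2, rfl⟩
      obtain ⟨h, hh, hhL⟩ := exists_of_pat hpat.symm
      obtain ⟨Z, hZ⟩ : ∃ Z : Set E, Z = Set.range u := ⟨_, rfl⟩
      rw [← hZ] at hhL
      have hZPQ : ∀ z ∈ Z, z ∈ P ∩ Q := by
        intro z hz
        rw [hZ] at hz
        obtain ⟨i, rfl⟩ := hz
        exact huPQ i
      have hhZ : ∀ z ∈ Z, h z ∈ Q \ P := by
        intro z hz
        rw [hZ] at hz
        obtain ⟨i, rfl⟩ := hz
        rw [hh]; exact hv i
      have hQh := hQ Z h (fun z hz => (hZPQ z hz).2) (fun z hz => (hhZ z hz).1) hhL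
      have hZX : ∀ z ∈ Z, z ∉ X := fun z hz hzx => hXQ z hzx (hZPQ z hz).2
      -- step A
      have stepA : LocalAut A (X ∪ Z) (glue X f) := by
        refine ⟨?_, ?_⟩
        · intro a ha b hb hab
          by_cases hax : a ∈ X
          · rw [glue_of_mem hax] at hab
            by_cases hbx : b ∈ X
            · rw [glue_of_mem hbx] at hab
              exact hL.1 hax hbx hab
            · rw [glue_of_notMem hbx] at hab
              have hbZ : b ∈ Z := hb.resolve_left hbx
              exact absurd (show f a ∈ Q by rw [hab]; exact (hZPQ b hbZ).2) (hf hax).2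
          · rw [glue_of_notMem hax] at hab
            have haZ : a ∈ Z := ha.resolve_left hax
            by_cases hbx : b ∈ X
            · rw [glue_of_mem hbx] at hab
              have : f b ∈ Q := by rw [← hab]; exact (hZPQ a haZ).2
              exact absurd this (hf hbx).2
            · rw [glue_of_notMem hbx] at hab
              exact hab
        · intro t ht
          -- s
          have e1 := hQh.2 t (fun i => by
            rcases ht i with h1 | h1
            · exact Or.inr (hXQ _ h1)
            · exact Or.inl h1)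
          have e2 := hPf.2 (fun i => glue Z h (t i)) (fun i => by
            rcases ht i with h1 | h1
            · have : t i ∉ Z := fun h2 => hZX _ h2 h1
              rw [glue_of_notMem this]; exact Or.inl h1
            · rw [glue_of_mem h1]; exact Or.inr (hhZ _ h1).2)
          have e3 := hQh.2 (fun i => glue X f (t i)) (fun i => by
            rcases ht i with h1 | h1
            · rw [glue_of_mem h1]; exact Or.inr (hf h1).2
            · rw [glue_of_notMem (hZX _ h1)]; exact Or.inl h1)
          rw [e1, e2, e3]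
          have e4 : (fun i => glue X f (glue Z h (t i)))
              = fun i => glue Z h (glue X f (t i)) := by
            funext i
            rcases ht i with h1 | h1
            · have hn : t i ∉ Z := fun h2 => hZX _ h2 h1
              have hn2 : f (t i) ∉ Z := fun h2 => (hf h1).2 (hZPQ _ h2).2
              rw [glue_of_notMem hn, glue_of_mem h1,
                glue_of_notMem hn2]
            · have hn : h (t i) ∉ X := fun h2 => hXQ _ h2 (hhZ _ h1).1
              rw [glue_of_mem h1, glue_of_notMem hn,
                glue_of_notMem (hZX _ h1), glue_of_mem h1]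
          rw [e4]
      -- step B
      have stepB := hP (X ∪ Z) (glue X f)
        (by rintro x (hx | hx); exacts [hXP x hx, (hZPQ x hx).1])
        (by
          rintro x (hx | hx)
          · rw [glue_of_mem hx]; exact (hf hx).1
          · rw [glue_of_notMem (hZX x hx)]; exact (hZPQ x hx).1) stepA
      have htZ : ∀ i, t i ∈ P ∩ Q → t i ∈ Z := by
        intro i hi
        rw [hZ]
        exact ⟨i, by rw [hu]; simp only [if_pos hi]⟩
      have htm : ∀ i, t i ∈ (X ∪ Z) ∪ Pᶜ := by
        intro i
        rcases ht i with h1 | h1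
        · exact Or.inl (Or.inl h1)
        · by_cases hp : t i ∈ P
          · have hq : t i ∈ Q := by
              by_contra hq
              exact h1 ⟨hp, hq⟩
            exact Or.inl (Or.inr (htZ i ⟨hp, hq⟩))
          · exact Or.inr hp
      rw [stepB.2 t htm]
      have e5 : (fun i => glue (X ∪ Z) (glue X f) (t i))
          = fun i => glue X f (t i) := by
        funext i
        by_cases h1 : t i ∈ X ∪ Z
        · rw [glue_of_mem h1]
        · have h2 : t i ∉ X := fun h => h1 (Or.inl h)
          rw [glue_of_notMem h1, glue_of_notMem h2]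
      rw [e5]
    · push Not at hz
      refine hPf.2 t fun i => ?_
      rcases ht i with h1 | h1
      · exact Or.inl h1
      · refine Or.inr fun hp => ?_
        exact hz i ⟨hp, by by_contra hq; exact h1 ⟨hp, hq⟩⟩

/-- number of patterns -/
noncomputable def m (A : Set (Fin n → E)) (X : Set E) : ℕ := (tp A X).ncard

theorem m_mono {X Y : Set E} (h : X ⊆ Y) : m A X ≤ m A Y :=
  Set.ncard_le_ncard (tp_mono h) (Set.toFinite _)

theorem m_lt {P Q : Set E} (hP : IsInterval A P) (hQ : IsInterval A Q)
    (h : ¬ IsInterval A (Q \ P)) : m A (P \ Q) < m A P := by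
  refine Set.ncard_lt_ncard ?_ (Set.toFinite _)
  refine ⟨tp_mono Set.sdiff_subset, fun hsub => h ?_⟩
  exact diff_interval hQ hP hsub

/-- union of a list of sets -/
def un (L : List (Set E)) : Set E := {e | ∃ P ∈ L, e ∈ P}

/-- `U` is a finite union of pairwise disjoint intervals -/
def FD (A : Set (Fin n → E)) (U : Set E) : Prop :=
  ∃ L : List (Set E), (∀ P ∈ L, IsInterval A P) ∧ L.Pairwise Disjoint ∧ U = un L

theorem un_cons (P : Set E) (L : List (Set E)) : un (P :: L) = P ∪ un L := by
  ext e; simp [un]

theorem diff_list (hA : Compactible A) {P Q : Set E} (hP : IsInterval A P) (hQ : IsInterval A Q) :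
    ∃ R : List (Set E), (∀ I ∈ R, IsInterval A I ∧ I ⊆ P \ Q) ∧ P \ Q = un R := by
  obtain ⟨S, hfin, hS, hU⟩ := hA Q hQ
  refine ⟨hfin.toFinset.toList.map (fun I => P ∩ I), ?_, ?_⟩
  · intro I hI
    rw [List.mem_map] at hI
    obtain ⟨J, hJ, rfl⟩ := hI
    rw [Finset.mem_toList, Set.Finite.mem_toFinset] at hJ
    refine ⟨hP.inter (hS J hJ), fun x hx => ⟨hx.1, ?_⟩⟩
    have : x ∈ Qᶜ := by rw [hU]; exact ⟨J, hJ, hx.2⟩
    exact this
  · ext x
    constructor
    · rintro ⟨hxP, hxQ⟩
      have : x ∈ Qᶜ := hxQ
      rw [hU] at this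
      obtain ⟨J, hJ, hxJ⟩ := this
      refine ⟨P ∩ J, ?_, hxP, hxJ⟩
      rw [List.mem_map]
      exact ⟨J, by rw [Finset.mem_toList, Set.Finite.mem_toFinset]; exact hJ, rfl⟩
    · rintro ⟨I, hI, hxI⟩
      rw [List.mem_map] at hI
      obtain ⟨J, hJ, rfl⟩ := hI
      rw [Finset.mem_toList, Set.Finite.mem_toFinset] at hJ
      refine ⟨hxI.1, ?_⟩
      have : x ∈ Qᶜ := by rw [hU]; exact ⟨J, hJ, hxI.2⟩
      exact this

theorem insert_list {N : ℕ}
    (IH : ∀ P : Set E, IsInterval A P → m A P < N → ∀ U, FD A U → FD A (P ∪ U)) :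
    ∀ R : List (Set E), (∀ I ∈ R, IsInterval A I ∧ m A I < N) → ∀ U, FD A U → FD A (un R ∪ U) := by
  intro R
  induction R with
  | nil => intro _ U hU; simpa [un] using hU
  | cons I R ih =>
    intro hR U hU
    rw [un_cons, Set.union_assoc]
    exact IH I (hR I (by simp)).1 (hR I (by simp)).2 _ (ih (fun J hJ => hR J (by simp [hJ])) U hU)

theorem insert_step (hA : Compactible A) {N : ℕ}
    (IH : ∀ P : Set E, IsInterval A P → m A P < N → ∀ U, FD A U → FD A (P ∪ U)) :
    ∀ Q : List (Set E), (∀ I ∈ Q, IsInterval A I) → Q.Pairwise Disjoint →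
    ∀ P : Set E, IsInterval A P → m A P ≤ N →
    ∀ L : List (Set E), (∀ I ∈ L, IsInterval A I) → L.Pairwise Disjoint →
    (∀ I ∈ L, ∀ J ∈ Q, Disjoint I J) → (∀ I ∈ L, Disjoint P I) → FD A (P ∪ un L ∪ un Q) := by
  intro Q
  induction Q with
  | nil =>
    intro _ _ P hP _ L hL hLd _ hPL
    refine ⟨P :: L, ?_, ?_, ?_⟩
    · intro I hI
      rcases List.mem_cons.mp hI with rfl | hI
      · exact hP
      · exact hL I hI
    · exact List.pairwise_cons.mpr ⟨hPL, hLd⟩
    · rw [un_cons]; simp [un]
  | cons Q0 Q ih =>
    intro hQ hQd P hP hm L hL hLd hLQ hPL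
    have hQ0 : IsInterval A Q0 := hQ Q0 (by simp)
    have hQ' : ∀ I ∈ Q, IsInterval A I := fun I hI => hQ I (by simp [hI])
    rw [List.pairwise_cons] at hQd
    by_cases c1 : IsInterval A (P \ Q0)
    · have := ih hQ' hQd.2 (P \ Q0) c1 ((m_mono Set.sdiff_subset).trans hm) (Q0 :: L) (by
        intro I hI
        rcases List.mem_cons.mp hI with rfl | hI
        · exact hQ0
        · exact hL I hI) (List.pairwise_cons.mpr ⟨fun I hI => (hLQ I hI Q0 (by simp)).symm, hLd⟩)
        (by
          intro I hI J hJ
          rcases List.mem_cons.mp hI with rfl | hI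
          · exact hQd.1 J hJ
          · exact hLQ I hI J (by simp [hJ]))
        (by
          intro I hI
          rcases List.mem_cons.mp hI with rfl | hI
          · exact Set.disjoint_sdiff_left
          · exact (hPL I hI).mono_left Set.sdiff_subset)
      have e : P \ Q0 ∪ un (Q0 :: L) ∪ un Q = P ∪ un L ∪ un (Q0 :: Q) := by
        rw [un_cons, un_cons]
        ext x
        simp only [Set.mem_union, Set.mem_sdiff]
        tauto
      rwa [e] at this
    · by_cases c2 : IsInterval A (Q0 \ P)
      · have := ih hQ' hQd.2 P hP hm ((Q0 \ P) :: L) (by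
          intro I hI
          rcases List.mem_cons.mp hI with rfl | hI
          · exact c2
          · exact hL I hI) (List.pairwise_cons.mpr
            ⟨fun I hI => ((hLQ I hI Q0 (by simp)).symm).mono_left Set.sdiff_subset, hLd⟩)
          (by
            intro I hI J hJ
            rcases List.mem_cons.mp hI with rfl | hI
            · exact (hQd.1 J hJ).mono_left Set.sdiff_subset
            · exact hLQ I hI J (by simp [hJ]))
          (by
            intro I hI
            rcases List.mem_cons.mp hI with rfl | hI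
            · exact Set.disjoint_sdiff_right
            · exact hPL I hI)
        have e : P ∪ un ((Q0 \ P) :: L) ∪ un Q = P ∪ un L ∪ un (Q0 :: Q) := by
          rw [un_cons, un_cons]
          ext x
          simp only [Set.mem_union, Set.mem_sdiff]
          tauto
        rwa [e] at this
      · obtain ⟨R, hR, hRU⟩ := diff_list hA hP hQ0
        have hlt : m A (P \ Q0) < N := lt_of_lt_of_le (m_lt hP hQ0 c2) hm
        have hFD : FD A (un (L ++ (Q0 :: Q))) := by
          refine ⟨L ++ (Q0 :: Q), ?_, ?_, rfl⟩
          · intro I hI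
            rcases List.mem_append.mp hI with hI | hI
            · exact hL I hI
            · exact hQ I hI
          · rw [List.pairwise_append]
            exact ⟨hLd, List.pairwise_cons.mpr hQd, hLQ⟩
        have := insert_list IH R (fun I hI => ⟨(hR I hI).1, lt_of_le_of_lt (m_mono (hR I hI).2) hlt⟩)
          _ hFD
        have e : un R ∪ un (L ++ (Q0 :: Q)) = P ∪ un L ∪ un (Q0 :: Q) := by
          rw [← hRU]
          ext x
          simp only [Set.mem_union, Set.mem_sdiff, un, List.mem_append, List.mem_cons,
            Set.mem_ofPred_eq]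
          constructor
          · rintro (h | ⟨I, h1 | h1, h2⟩)
            · exact Or.inl (Or.inl h.1)
            · exact Or.inl (Or.inr ⟨I, h1, h2⟩)
            · exact Or.inr ⟨I, h1, h2⟩
          · rintro ((h | ⟨I, h1, h2⟩) | ⟨I, h1, h2⟩)
            · by_cases hx : x ∈ Q0
              · exact Or.inr ⟨Q0, Or.inr (Or.inl rfl), hx⟩
              · exact Or.inl ⟨h, hx⟩
            · exact Or.inr ⟨I, Or.inl h1, h2⟩
            · exact Or.inr ⟨I, Or.inr h1, h2⟩
        rwa [e] at this

theorem insert_all (hA : Compactible A) :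
    ∀ N : ℕ, ∀ P : Set E, IsInterval A P → m A P < N → ∀ U, FD A U → FD A (P ∪ U) := by
  intro N
  induction N with
  | zero => intro P _ h; exact absurd h (Nat.not_lt_zero _)
  | succ N ih =>
    rintro P hP hm _ ⟨Q, hQ, hQd, rfl⟩
    have := insert_step hA ih Q hQ hQd P hP (Nat.lt_succ_iff.mp hm) [] (by simp) (by simp)
      (by simp) (by simp)
    simpa [un] using this

end

/-- For every compactible relation `A` and every interval `D` of `A`, the complement of `D` is the
union of finitely many pairwise disjoint intervals of `A`. -/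
theorem result {E : Type*} {n : ℕ} (A : Set (Fin n → E)) (hA : Compactible A) (D : Set E)
    (hD : IsInterval A D) :
    ∃ S : Set (Set E), S.Finite ∧ (∀ I ∈ S, IsInterval A I) ∧ S.PairwiseDisjoint id ∧
      Dᶜ = ⋃₀ S := by
  obtain ⟨S, hfin, hS, hU⟩ := hA D hD
  obtain ⟨N, hN⟩ : ∃ N, ∀ P : Set E, m A P < N := by
    refine ⟨m A Set.univ + 1, fun P => Nat.lt_succ_of_le (m_mono (Set.subset_univ P))⟩
  have h0 : FD A (∅ : Set E) := ⟨[], by simp, List.Pairwise.nil, by ext x; simp [un]⟩
  have h1 := insert_list (A := A) (N := N) (insert_all hA N) hfin.toFinset.toList (by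
    intro I hI
    rw [Finset.mem_toList, Set.Finite.mem_toFinset] at hI
    exact ⟨hS I hI, hN I⟩) ∅ h0
  obtain ⟨L, hL, hLd, hLU⟩ := h1
  refine ⟨{P | P ∈ L}, L.finite_toSet, hL, ?_, ?_⟩
  · intro P hP Q hQ hne
    exact hLd.forall hP hQ hne
  · rw [hU]
    have e1 : ⋃₀ S = un hfin.toFinset.toList ∪ ∅ := by
      ext x
      simp only [Set.union_empty, Set.mem_sUnion, un, Set.mem_ofPred_eq, Finset.mem_toList,
        Set.Finite.mem_toFinset]
    rw [e1, hLU]
    ext x
    simp only [Set.mem_sUnion, un, Set.mem_ofPred_eq]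

end Pool.Agent.Results.MP_a8ef43_co.DisjointIntervals
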